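import Pool.Agent.TH867.SB.Final
import Pool.Agent.TH867.SR.LB

/-! The number of all abc triples with radical at most `X`, of whatever height, is
`X ^ (2/3 + o(1))`. -/

set_option autoImplicit false

namespace Pool.Agent.Results.MP_7aad9f_nt.AllHeightsTwoThirds

/-- the product of the primes dividing `n` -/
def radical (n : ℕ) : ℕ := ∏ q ∈ n.primeFactors, q

/-- the abc triples `(a, b, a + b)`, written `(a, b)`: coprime `1 ≤ a ≤ b`, the radical of
`a b (a + b)` at most `X`; there is no condition on the size of `a + b` -/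
def triples (X : ℝ) : Set (ℕ × ℕ) :=
  {p | 0 < p.1 ∧ p.1 ≤ p.2 ∧ Nat.Coprime p.1 p.2 ∧
    ((radical (p.1 * p.2 * (p.1 + p.2)) : ℕ) : ℝ) ≤ X}

/-- the triple of a pair -/
def toT (p : ℕ × ℕ) : Fin 3 → ℕ := ![p.1, p.2, p.1 + p.2]

open Pool.Agent.TH867.SR

theorem toT_inj : Function.Injective toT := by
  intro p q h
  have h0 := congrFun h 0
  have h1 := congrFun h 1
  simp only [toT, Matrix.cons_val_zero, Matrix.cons_val_one] at h0 h1
  exact Prod.ext h0 h1

theorem toT_tr {X : ℝ} {p : ℕ × ℕ} (hp : p ∈ triples X) :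
    Tr (toT p) ∧ rr (toT p) 0 + rr (toT p) 1 + rr (toT p) 2 ≤ Real.log X := by
  obtain ⟨h1, h2, h3, h4⟩ := hp
  have ht : Tr (toT p) := ⟨h1, h2, h3, rfl⟩
  refine ⟨ht, ?_⟩
  rw [← rr_sum ht, ← log_prod_primes fun q hq => Nat.prime_of_mem_primeFactors hq]
  refine Real.log_le_log ?_ h4
  exact_mod_cast Finset.prod_pos fun q hq => (Nat.prime_of_mem_primeFactors hq).pos

theorem triples_finite {X : ℝ} (hX : 1 ≤ X) : (triples X).Finite := by
  obtain ⟨H, hH⟩ : ∃ H, H = Real.exp (3000 * (1 + Real.log X) ^ 6) := ⟨_, rfl⟩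
  refine Set.Finite.subset (Finset.finite_toSet
    ((Finset.range (⌊Real.exp H⌋₊ + 1)) ×ˢ (Finset.range (⌊Real.exp H⌋₊ + 1)))) ?_
  intro p hp
  have h5 := Pool.Agent.TH867.SM.height_le (toT_tr hp).1 hX (toT_tr hp).2
  rw [← hH] at h5
  obtain ⟨h1, h2, _, _⟩ := hp
  have h7 : toT p 2 = p.1 + p.2 := rfl
  rw [h7] at h5
  have h6 : p.1 + p.2 ≤ ⌊Real.exp H⌋₊ := by
    refine Nat.le_floor ?_
    rw [← Real.log_le_iff_le_exp (by exact_mod_cast (by omega : 0 < p.1 + p.2))]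
    exact h5
  simp only [Finset.coe_product, Finset.coe_range, Set.mem_prod, Set.mem_Iio]
  omega

theorem result : ∀ ε : ℝ, 0 < ε → ∃ c C : ℝ, 0 < c ∧ 0 < C ∧ ∀ X : ℝ, 3 ≤ X →
    (triples X).Finite ∧
    c * X ^ (2 / 3 - ε) ≤
      (((fun p : ℕ × ℕ => radical (p.1 * p.2 * (p.1 + p.2))) '' triples X).ncard : ℝ) ∧
    ((triples X).ncard : ℝ) ≤ C * X ^ (2 / 3 + ε) := by
  classical
  intro ε hε
  obtain ⟨D, hD, hup⟩ := Pool.Agent.TH867.SB.all_heights ε hε
  obtain ⟨c, hc, hlow⟩ := radicals_lower ε hε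
  refine ⟨min c (1 / 4), D, by positivity, hD, fun X hX => ?_⟩
  have hX0 : 0 < X := by linarith
  have hX1 : 1 ≤ X := by linarith
  have hfin := triples_finite hX1
  refine ⟨hfin, ?_, ?_⟩
  · have hifin : ((fun p : ℕ × ℕ => radical (p.1 * p.2 * (p.1 + p.2))) '' triples X).Finite :=
      hfin.image _
    have hXε : X ^ (2 / 3 - ε) ≤ X ^ ((2 : ℝ) / 3) :=
      Real.rpow_le_rpow_of_exponent_le hX1 (by linarith)
    have hXε0 : 0 < X ^ (2 / 3 - ε) := by positivity
    by_cases h8 : 8 ≤ X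
    · have h1 := hlow X h8 _ rfl
      have h2 : min c (1 / 4) * X ^ (2 / 3 - ε) ≤ c * X ^ (2 / 3 - ε) :=
        mul_le_mul_of_nonneg_right (min_le_left _ _) hXε0.le
      refine h2.trans (h1.trans ?_)
      obtain ⟨N, hN⟩ : ∃ N : ℕ, N = ⌊X ^ ((1 : ℝ) / 3) / 2⌋₊ := ⟨_, rfl⟩
      rw [← hN]
      have hsub : (((cpp N).image fun p => radN (p.1 * p.2 * (p.1 + p.2)) : Finset ℕ) : Set ℕ) ⊆
          (fun p : ℕ × ℕ => radical (p.1 * p.2 * (p.1 + p.2))) '' triples X := by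
        intro R hR
        obtain ⟨p, hp, hpR⟩ := Finset.mem_image.1 (Finset.mem_coe.1 hR)
        refine ⟨p, ?_, hpR⟩
        obtain ⟨a1, a2, a3⟩ := Finset.mem_filter.1 hp
        obtain ⟨a4, a5⟩ := Finset.mem_product.1 a1
        obtain ⟨a6, a7⟩ := Finset.mem_Ioc.1 a4
        obtain ⟨a8, a9⟩ := Finset.mem_Ioc.1 a5
        obtain ⟨Y, hY⟩ : ∃ Y, Y = X ^ ((1 : ℝ) / 3) := ⟨_, rfl⟩
        rw [← hY] at hN
        have hY0 : 0 < Y := by rw [hY]; positivity
        have hY3 : Y ^ 3 = X := by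
          rw [hY, ← Real.rpow_natCast, ← Real.rpow_mul hX0.le]
          norm_num
        have hNY : (N : ℝ) ≤ Y / 2 := by rw [hN]; exact Nat.floor_le (by positivity)
        have hsum : ((p.1 + p.2 : ℕ) : ℝ) ≤ Y := by
          have : ((p.1 + p.2 : ℕ) : ℝ) ≤ ((N + N : ℕ) : ℝ) := by exact_mod_cast Nat.add_le_add a7 a9
          push_cast at this ⊢
          linarith
        have hb1 : (p.1 : ℝ) ≤ Y := by
          have : (p.1 : ℝ) ≤ N := by exact_mod_cast a7
          linarith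
        have hb2 : (p.2 : ℝ) ≤ Y := by
          have : (p.2 : ℝ) ≤ N := by exact_mod_cast a9
          linarith
        refine ⟨a6, a2, a3, ?_⟩
        have b1 : radical (p.1 * p.2 * (p.1 + p.2)) ≤ p.1 * p.2 * (p.1 + p.2) :=
          Nat.le_of_dvd (by positivity) (Nat.prod_primeFactors_dvd _)
        have b2 : ((radical (p.1 * p.2 * (p.1 + p.2)) : ℕ) : ℝ) ≤
            (p.1 : ℝ) * p.2 * ((p.1 + p.2 : ℕ) : ℝ) := by exact_mod_cast b1
        refine b2.trans ?_
        calc (p.1 : ℝ) * p.2 * ((p.1 + p.2 : ℕ) : ℝ) ≤ Y * Y * Y := by gcongr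
          _ = X := by rw [← hY3]; ring
      have h3 := Set.ncard_le_ncard hsub hifin
      rw [Set.ncard_coe_finset] at h3
      exact_mod_cast h3
    · push Not at h8
      have h1 : X ^ ((2 : ℝ) / 3) ≤ 4 := by
        have h2 : X ^ ((2 : ℝ) / 3) ≤ 8 ^ ((2 : ℝ) / 3) :=
          Real.rpow_le_rpow hX0.le h8.le (by norm_num)
        have h3 : (8 : ℝ) ^ ((2 : ℝ) / 3) = 4 := by
          rw [show (8 : ℝ) = 2 ^ (3 : ℝ) by norm_num, ← Real.rpow_mul (by norm_num)]
          norm_num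
        rwa [h3] at h2
      have h2 : min c (1 / 4) * X ^ (2 / 3 - ε) ≤ 1 := by
        calc min c (1 / 4) * X ^ (2 / 3 - ε) ≤ (1 / 4) * 4 :=
              mul_le_mul (min_le_right _ _) (hXε.trans h1) hXε0.le (by norm_num)
          _ = 1 := by norm_num
      refine h2.trans ?_
      have hmem : ((1, 1) : ℕ × ℕ) ∈ triples X := by
        refine ⟨Nat.one_pos, le_rfl, Nat.coprime_one_left 1, ?_⟩
        have : radical (1 * 1 * (1 + 1)) = 2 := by
          show ∏ q ∈ (1 * 1 * (1 + 1) : ℕ).primeFactors, q = 2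
          rw [show (1 * 1 * (1 + 1) : ℕ) = 2 from rfl, Nat.Prime.primeFactors Nat.prime_two,
            Finset.prod_singleton]
        show ((radical (1 * 1 * (1 + 1)) : ℕ) : ℝ) ≤ X
        rw [this]
        push_cast
        linarith
      have hne : ((fun p : ℕ × ℕ => radical (p.1 * p.2 * (p.1 + p.2))) ''
          triples X).Nonempty := ⟨_, _, hmem, rfl⟩
      have h4 := (Set.ncard_pos hifin).2 hne
      exact_mod_cast h4
  · have h1 := hup X hX1 (hfin.toFinset.image toT) (fun t ht => by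
      obtain ⟨p, hp, rfl⟩ := Finset.mem_image.1 ht
      exact toT_tr (hfin.mem_toFinset.1 hp))
    rw [Finset.card_image_of_injective _ toT_inj, ← Set.ncard_eq_toFinset_card _ hfin] at h1
    exact h1

end Pool.Agent.Results.MP_7aad9f_nt.AllHeightsTwoThirds
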