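import Mathlib
import Pool.Agent.TH871.L1.Const

namespace Pool.Agent.Results.MP_7aad9f_nt.LargerConstant

/-- the radical `R(m)`: the product of the distinct primes dividing `m` -/
def R (m : ℕ) : ℕ := ∏ p ∈ m.primeFactors, p

/-- For every `K ≤ 6.84` there are, for every `X`, coprime positive integers `a`, `b` with
`c = a + b > X` and `c > R (abc) * exp (K * √(log c) / log (log c))`. -/
theorem result (K : ℝ) (hK : K ≤ 6.84) (X : ℝ) :
    ∃ a b c : ℕ, 0 < a ∧ 0 < b ∧ Nat.Coprime a b ∧ a + b = c ∧ X < c ∧
      (R (a * b * c) : ℝ) * Real.exp (K * √(Real.log c) / Real.log (Real.log c)) < c := by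
  set K' : ℝ := max K 0 with hK'
  have hK'0 : 0 ≤ K' := le_max_right _ _
  have hK'1 : K' ≤ 171 / 25 := max_le (by norm_num at hK ⊢; linarith) (by norm_num)
  obtain ⟨a, b, c, ⟨ha, hb, hc, habc, hab, hac, hbc⟩, hX, hlt⟩ :=
    Pool.Agent.TH871.L1.good_triples hK'0 hK'1 (max X (Real.exp 1))
  have hc0 : (0 : ℝ) < c := by exact_mod_cast hc
  have hlogX : X < Real.log c := lt_of_le_of_lt (le_max_left _ _) hX
  have hlog1 : Real.exp 1 < Real.log c := lt_of_le_of_lt (le_max_right _ _) hX
  refine ⟨a, b, c, ha, hb, hab, habc, ?_, ?_⟩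
  · have := Real.log_le_sub_one_of_pos hc0
    linarith
  · have hR0 : 0 < Pool.Agent.H390R2.rad (a * b * c) := by
      refine Finset.prod_pos fun p hp => ?_
      exact (Nat.prime_of_mem_primeFactors hp).pos
    have hR : (0 : ℝ) < (R (a * b * c) : ℝ) := by exact_mod_cast hR0
    have hll : 0 < Real.log (Real.log c) := by
      apply Real.log_pos
      have : (1 : ℝ) < Real.exp 1 := Real.one_lt_exp_iff.mpr one_pos
      linarith
    have h1 : K * √(Real.log c) / Real.log (Real.log c) ≤
        K' * √(Real.log c) / Real.log (Real.log c) := by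
      have : K ≤ K' := le_max_left _ _
      gcongr
    have h2 : K * √(Real.log c) / Real.log (Real.log c) <
        Real.log c - Real.log (R (a * b * c)) := lt_of_le_of_lt h1 hlt
    calc (R (a * b * c) : ℝ) * Real.exp (K * √(Real.log c) / Real.log (Real.log c))
        < (R (a * b * c) : ℝ) * Real.exp (Real.log c - Real.log (R (a * b * c))) := by
          gcongr
      _ = c := by
          rw [Real.exp_sub, Real.exp_log hc0, Real.exp_log hR]
          field_simp

end Pool.Agent.Results.MP_7aad9f_nt.LargerConstant
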