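import Pool.Agent.TH194.MR.Main

/-!
# The least radical of an abc triple whose product is divisible by `n`

For almost all positive integers `n` (with a power saving) the least radical of an abc triple, of
whatever height, whose product `a b c` is divisible by `n`, is `max (n ^ (3/2), n P(n))` up to a
factor `n ^ (± ε)`, where `P(n)` is the largest prime factor of `n`.
-/

set_option autoImplicit false

namespace Pool.Agent.Results.MP_7aad9f_nt.MultiplesThreeHalves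

/-- the product of the primes dividing `n` -/
def radical (n : ℕ) : ℕ := ∏ p ∈ n.primeFactors, p

/-- `(a, b, c)` is an abc triple: positive integers, `a + b = c`, `a` and `b` coprime -/
def Triple (a b c : ℕ) : Prop := 0 < a ∧ 0 < b ∧ a + b = c ∧ Nat.gcd a b = 1

/-- the largest prime factor of `n` (`0` for `n = 1`) -/
def largestPrime (n : ℕ) : ℕ := n.primeFactors.sup id

/-- the larger of `n ^ (3/2)` and `n P(n)` -/
noncomputable def M (n : ℕ) : ℝ := max ((n : ℝ) ^ (3 / 2 : ℝ)) ((n : ℝ) * largestPrime n)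

/-- every abc triple (of whatever height) with `n ∣ a b c` has radical larger than
`M(n) n ^ (-ε)`, and one of them has radical at most `M(n) n ^ ε` -/
def Regular (ε : ℝ) (n : ℕ) : Prop :=
  (∀ a b c : ℕ, Triple a b c → n ∣ a * b * c →
    M n * (n : ℝ) ^ (-ε) < (radical (a * b * c) : ℝ)) ∧
  ∃ a b c : ℕ, Triple a b c ∧ n ∣ a * b * c ∧ (radical (a * b * c) : ℝ) ≤ M n * (n : ℝ) ^ ε

/-- **Main theorem.** (1) All but `C N ^ (1 - ε / 5)` of the positive integers `n ≤ N` are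
regular. (2) If `n < P(n) ^ 2`, then `n` divides the product of an abc triple of radical at most
`n P(n)`. -/
theorem result :
    (∀ ε : ℝ, 0 < ε → ε ≤ 1 → ∃ C : ℝ, ∀ N : ℕ, 1 ≤ N →
      (({n : ℕ | 1 ≤ n ∧ n ≤ N ∧ ¬ Regular ε n}.ncard : ℕ) : ℝ) ≤ C * (N : ℝ) ^ (1 - ε / 5)) ∧
    ∀ n : ℕ, 1 ≤ n → n < largestPrime n ^ 2 → ∃ a b c : ℕ, Triple a b c ∧ n ∣ a * b * c ∧
      radical (a * b * c) ≤ n * largestPrime n := by
  classical
  constructor
  · intro ε hε hε1
    obtain ⟨D1, hD1, h1⟩ := Pool.Agent.TH194.MR.lower_set ε hε hε1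
    obtain ⟨D2, hD2, h2⟩ := Pool.Agent.TH194.MR.upper_set ε hε hε1
    refine ⟨D1 + D2, fun N hN => ?_⟩
    have hNr : (1 : ℝ) ≤ N := by exact_mod_cast hN
    obtain ⟨E1, hE1⟩ : ∃ E1, E1 = (Finset.Icc 1 N).filter fun n => ∃ a b c : ℕ, Triple a b c ∧
        n ∣ a * b * c ∧ (radical (a * b * c) : ℝ) ≤ M n * (n : ℝ) ^ (-ε) := ⟨_, rfl⟩
    obtain ⟨E2, hE2⟩ : ∃ E2, E2 = (Finset.Icc 1 N).filter fun n => ¬ ∃ a b c : ℕ, Triple a b c ∧
        n ∣ a * b * c ∧ (radical (a * b * c) : ℝ) ≤ M n * (n : ℝ) ^ ε := ⟨_, rfl⟩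
    have hsub : {n : ℕ | 1 ≤ n ∧ n ≤ N ∧ ¬ Regular ε n} ⊆ ((E1 ∪ E2 : Finset ℕ) : Set ℕ) := by
      intro n hn
      obtain ⟨n1, n2, n3⟩ := hn
      rw [Finset.mem_coe, Finset.mem_union, hE1, hE2, Finset.mem_filter, Finset.mem_filter,
        Finset.mem_Icc]
      by_cases h : ∃ a b c : ℕ, Triple a b c ∧ n ∣ a * b * c ∧
        (radical (a * b * c) : ℝ) ≤ M n * (n : ℝ) ^ ε
      · left
        refine ⟨⟨n1, n2⟩, ?_⟩
        by_contra hcon
        apply n3
        refine ⟨fun a b c ht hd => ?_, h⟩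
        by_contra hle
        exact hcon ⟨a, b, c, ht, hd, not_lt.1 hle⟩
      · exact Or.inr ⟨⟨n1, n2⟩, h⟩
    have c0 : ({n : ℕ | 1 ≤ n ∧ n ≤ N ∧ ¬ Regular ε n}.ncard : ℕ) ≤ E1.card + E2.card := by
      have e1 := Set.ncard_le_ncard hsub (Finset.finite_toSet _)
      rw [Set.ncard_coe_finset] at e1
      exact e1.trans (Finset.card_union_le _ _)
    have c1 := h1 N hN E1 (fun n hn => by
      rw [hE1, Finset.mem_filter, Finset.mem_Icc] at hn
      exact ⟨hn.1.1, hn.1.2, hn.2⟩)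
    have c2 := h2 N hN E2 (fun n hn => by
      rw [hE2, Finset.mem_filter, Finset.mem_Icc] at hn
      exact ⟨hn.1.1, hn.1.2, hn.2⟩)
    have c3 : D1 * (N : ℝ) ^ (1 - ε / 2) ≤ D1 * (N : ℝ) ^ (1 - ε / 5) :=
      mul_le_mul_of_nonneg_left (Real.rpow_le_rpow_of_exponent_le hNr (by linarith)) hD1.le
    have c4 : (({n : ℕ | 1 ≤ n ∧ n ≤ N ∧ ¬ Regular ε n}.ncard : ℕ) : ℝ) ≤ E1.card + E2.card := by
      exact_mod_cast c0
    rw [add_mul]
    linarith
  · intro n hn hbig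
    obtain ⟨P, hP⟩ : ∃ P, P = largestPrime n := ⟨_, rfl⟩
    have hn2 : 2 ≤ n := by
      by_contra hcon
      have hn1 : n = 1 := by omega
      rw [hn1] at hbig
      have : largestPrime 1 = 0 := by
        rw [largestPrime, Nat.primeFactors_one]
        rfl
      rw [this] at hbig
      norm_num at hbig
    have hmem : largestPrime n ∈ n.primeFactors := Pool.Agent.TH194.MR.gp_mem hn2
    have hp := Nat.prime_of_mem_primeFactors hmem
    have hn0 : n ≠ 0 := by omega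
    have hv : 1 ≤ n.factorization (largestPrime n) :=
      hp.factorization_pos_of_dvd hn0 (Nat.dvd_of_mem_primeFactors hmem)
    obtain ⟨a, b, c, h1, h2, h3⟩ := Pool.Agent.TH194.MR.up_big hn0 hmem
      (lt_of_lt_of_le hbig (Nat.pow_le_pow_left (Nat.le_self_pow (by omega) _) 2))
    refine ⟨a, b, c, h1, h2, ?_⟩
    rw [← hP] at hbig ⊢
    have hnr : (0 : ℝ) < n := by exact_mod_cast hn
    have e1 : (n : ℝ) ^ (3 / 2 : ℝ) ≤ (n : ℝ) * P := by
      have e2 : (n : ℝ) ^ (1 / 2 : ℝ) ≤ P := by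
        have e3 : (n : ℝ) ≤ (P : ℝ) ^ (2 : ℝ) := by
          rw [show (2 : ℝ) = ((2 : ℕ) : ℝ) by norm_num, Real.rpow_natCast]
          exact_mod_cast hbig.le
        calc (n : ℝ) ^ (1 / 2 : ℝ) ≤ ((P : ℝ) ^ (2 : ℝ)) ^ (1 / 2 : ℝ) :=
              Real.rpow_le_rpow hnr.le e3 (by norm_num)
          _ = P := by
              rw [← Real.rpow_mul (Nat.cast_nonneg _)]
              norm_num
      calc (n : ℝ) ^ (3 / 2 : ℝ) = (n : ℝ) * (n : ℝ) ^ (1 / 2 : ℝ) := by
            rw [show (3 / 2 : ℝ) = 1 + 1 / 2 by norm_num, Real.rpow_add hnr, Real.rpow_one]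
        _ ≤ (n : ℝ) * P := mul_le_mul_of_nonneg_left e2 hnr.le
    have h4 : Pool.Agent.TH194.MR.level n = (n : ℝ) * P := by
      rw [hP]
      rw [hP] at e1
      exact max_eq_right e1
    rw [h4] at h3
    have h5 : ((Pool.Agent.TH194.MR.rad (a * b * c) : ℕ) : ℝ) ≤ ((n * P : ℕ) : ℝ) := by
      push_cast
      exact h3
    exact_mod_cast h5

end Pool.Agent.Results.MP_7aad9f_nt.MultiplesThreeHalves
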