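import Pool.Agent.TH715.RU.Rat
import Pool.Agent.TH715.RU.Comb2

/-!
# abc triples composed of random primes

For almost all sets of `m` primes, taken from any pool of at least `C m` primes, the number of abc
triples composed of these primes and of given primes is subexponential in `m`, at all heights, and
every such triple involves few of the primes.
-/

set_option autoImplicit false

namespace Pool.Agent.Results.MP_7aad9f_nt.RandomSetsOfPrimes

/-- the abc triples `(a, b, a + b)`, written `(a, b)`, composed of the primes in `S`: coprime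
`1 ≤ a ≤ b`, all primes dividing `a b (a + b)` in `S`; there is no condition on the size of
`a + b` -/
def Triples (S : Finset ℕ) : Set (ℕ × ℕ) :=
  {p | 0 < p.1 ∧ p.1 ≤ p.2 ∧ Nat.Coprime p.1 p.2 ∧ (p.1 * p.2 * (p.1 + p.2)).primeFactors ⊆ S}

/-- the number of the primes outside `P₀` which divide `a b (a + b)` -/
def newPrimes (P₀ : Finset ℕ) (p : ℕ × ℕ) : ℕ := ((p.1 * p.2 * (p.1 + p.2)).primeFactors \ P₀).card

/-- there are only finitely many triples composed of the primes in `P₀ ∪ P`, at most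
`(log y) ^ 6 (C (1 + |P| / W)) ^ W`, and each of them involves at most `W` primes outside `P₀` -/
def Good (P₀ P : Finset ℕ) (y C W : ℝ) : Prop :=
  (Triples (P₀ ∪ P)).Finite ∧
  ((Triples (P₀ ∪ P)).ncard : ℝ) ≤ Real.log y ^ 6 * (C * (1 + (P.card : ℝ) / W)) ^ W ∧
  ∀ p ∈ Triples (P₀ ∪ P), (newPrimes P₀ p : ℝ) ≤ W

open Pool.Agent.TH867.SR Pool.Agent.TH715.RU

/-- the triple of a pair -/
def toT (p : ℕ × ℕ) : Fin 3 → ℕ := ![p.1, p.2, p.1 + p.2]

theorem toT_inj : Function.Injective toT := by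
  intro p q h
  have h0 := congrFun h 0
  have h1 := congrFun h 1
  simp only [toT, Matrix.cons_val_zero, Matrix.cons_val_one] at h0 h1
  exact Prod.ext h0 h1

theorem toT_mem {S : Finset ℕ} {p : ℕ × ℕ} (hp : p ∈ Triples S) :
    Tr (toT p) ∧ (N3 (toT p)).primeFactors ⊆ S :=
  ⟨⟨hp.1, hp.2.1, hp.2.2.1, rfl⟩, hp.2.2.2⟩

theorem newPrimes_eq (P₀ : Finset ℕ) (p : ℕ × ℕ) :
    newPrimes P₀ p = ((N3 (toT p)).primeFactors \ P₀).card := rfl

/-- For every `0 < ε ≤ 1/10` there are `C, δ > 0` such that for all `y ≥ 3` and all sets `P₀`, `Q`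
of primes up to `y`:
* for all `w` at most `(log y) ^ 6 · C ^ (|P₀| + w + 1) · binom(|Q|, w - ⌊(1/3 - ε) w⌋)` triples are
  composed of the primes in `P₀ ∪ Q` and involve exactly `w` primes outside `P₀`;
* if `m ≤ |Q|` and `W ≥ C`, `W ≥ |P₀|`, `W ≥ C m (m / |Q|) ^ (1/2 - ε)`, then for all but at most
  `(log y) ^ 6 · exp (-W) · (m / |Q|) ^ (δ W) · binom(|Q|, m)` of the subsets `P` of `Q` with `m`
  elements there are at most `(log y) ^ 6 (C (1 + m / W)) ^ W` triples composed of the primes in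
  `P₀ ∪ P`, and each of them involves at most `W` primes outside `P₀`. -/
theorem result (ε : ℝ) (hε : 0 < ε) (hε1 : ε ≤ 1 / 10) : ∃ C δ : ℝ, 0 < C ∧ 0 < δ ∧
    ∀ (P₀ Q : Finset ℕ) (y : ℝ), 3 ≤ y → (∀ q ∈ P₀ ∪ Q, q.Prime ∧ (q : ℝ) ≤ y) →
      (∀ w : ℕ, {p ∈ Triples (P₀ ∪ Q) | newPrimes P₀ p = w}.Finite ∧
        ({p ∈ Triples (P₀ ∪ Q) | newPrimes P₀ p = w}.ncard : ℝ) ≤
          Real.log y ^ 6 * C ^ (P₀.card + w + 1) *
            (Q.card.choose (w - ⌊(1 / 3 - ε) * w⌋₊) : ℝ)) ∧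
      ∀ m : ℕ, m ≤ Q.card → ∀ W : ℝ, C ≤ W → (P₀.card : ℝ) ≤ W →
        C * m * ((m : ℝ) / Q.card) ^ (1 / 2 - ε) ≤ W →
        (({P : Finset ℕ | P ⊆ Q ∧ P.card = m ∧ ¬ Good P₀ P y C W}.ncard : ℕ) : ℝ) ≤
          Real.log y ^ 6 * (Real.exp (-W) * ((m : ℝ) / Q.card) ^ (δ * W)) *
            (Q.card.choose m : ℝ) := by
  classical
  obtain ⟨k, hk⟩ : ∃ k : ℕ, 1 / ε ≤ k := exists_nat_ge _
  have hk0 : (0 : ℝ) < k := lt_of_lt_of_le (by positivity) hk
  have hk1 : 1 ≤ k := by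
    have : 0 < k := by exact_mod_cast hk0
    omega
  have hkε : 1 / (k : ℝ) ≤ ε := by
    rw [div_le_iff₀ hε] at hk
    rw [div_le_iff₀ hk0]
    linarith
  obtain ⟨C₀, hC₀, hL⟩ := light_num hk1
  obtain ⟨C₂, δ, hC₂, hδ, hT⟩ := term_bound2 C₀ (1 / 3 - ε / 3) (1 / 2 - ε) hC₀
    (by linarith) (by linarith) (by nlinarith)
  obtain ⟨B, hB⟩ : ∃ B : ℝ, B = C₀ ^ 3 := ⟨_, rfl⟩
  have hB0 : 0 ≤ B := by rw [hB]; positivity
  refine ⟨max C₀ (max C₂ (B * Real.exp 1)), δ, lt_of_lt_of_le (by linarith) (le_max_left _ _),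
    hδ, ?_⟩
  intro P₀ Q y hy hPQ
  set C := max C₀ (max C₂ (B * Real.exp 1)) with hC
  have hCC₀ : C₀ ≤ C := le_max_left _ _
  have hCC₂ : C₂ ≤ C := (le_max_left _ _).trans (le_max_right _ _)
  have hCe : B * Real.exp 1 ≤ C := (le_max_right _ _).trans (le_max_right _ _)
  have hC1 : 1 ≤ C := hC₀.trans hCC₀
  obtain ⟨Λ, hΛ⟩ : ∃ Λ, Λ = Real.log y := ⟨_, rfl⟩
  have hy0 : 0 < y := by linarith
  have hΛ1 : 1 ≤ Λ := by
    rw [hΛ, Real.le_log_iff_exp_le hy0]
    have := Real.exp_one_lt_d9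
    linarith
  have hΛ0 : 0 < Λ := by linarith
  have hlog : ∀ q ∈ P₀ ∪ Q, q.Prime ∧ Real.log (q : ℝ) ≤ Λ := by
    intro q hq
    obtain ⟨h1, h2⟩ := hPQ q hq
    refine ⟨h1, ?_⟩
    rw [hΛ]
    exact Real.log_le_log (by exact_mod_cast h1.pos) h2
  have hlogP : ∀ q ∈ P₀, q.Prime ∧ Real.log (q : ℝ) ≤ Λ := fun q hq =>
    hlog q (Finset.mem_union_left _ hq)
  have hlogQ : ∀ q ∈ Q, q.Prime ∧ Real.log (q : ℝ) ≤ Λ := fun q hq =>
    hlog q (Finset.mem_union_right _ hq)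
  -- finiteness
  have hfinS : ∀ S : Finset ℕ, S ⊆ P₀ ∪ Q →
      {t : Fin 3 → ℕ | Tr t ∧ (N3 t).primeFactors ⊆ S}.Finite := fun S hS =>
    trs_finite S Λ hΛ1 fun q hq => (hlog q (hS hq)).2
  have hfinT : ∀ S : Finset ℕ, S ⊆ P₀ ∪ Q → (Triples S).Finite := by
    intro S hS
    refine Set.Finite.of_finite_image ((hfinS S hS).subset ?_) (toT_inj.injOn (s := Triples S))
    rintro t ⟨p, hp, rfl⟩
    exact toT_mem hp
  have hcardT : ∀ (A : Set (ℕ × ℕ)) (hA : A.Finite), ((A.ncard : ℕ) : ℝ) =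
      ((hA.toFinset.image toT).card : ℝ) := by
    intro A hA
    rw [Finset.card_image_of_injective _ toT_inj, ← Set.ncard_eq_toFinset_card _ hA]
  refine ⟨fun w => ?_, fun m hmQ W hCW hPW hcond => ?_⟩
  · have hfin : {p ∈ Triples (P₀ ∪ Q) | newPrimes P₀ p = w}.Finite :=
      (hfinT (P₀ ∪ Q) (Finset.Subset.refl _)).subset (Set.sep_subset _ _)
    refine ⟨hfin, ?_⟩
    rw [hcardT _ hfin, ← hΛ]
    have h1 := count_wQ (k := k) (α := 1 / 3 - ε) (by linarith) (by linarith) hL P₀ Q Λ hΛ1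
      hlogP hlogQ w (hfin.toFinset.image toT) (by
        intro t ht
        obtain ⟨p, hp, rfl⟩ := Finset.mem_image.1 ht
        rw [Set.Finite.mem_toFinset] at hp
        obtain ⟨hp1, hp2⟩ := hp
        obtain ⟨h1, h2⟩ := toT_mem hp1
        refine ⟨h1, ?_, by rw [← newPrimes_eq]; exact hp2⟩
        intro q hq
        obtain ⟨hq1, hq2⟩ := Finset.mem_sdiff.1 hq
        rcases Finset.mem_union.1 (h2 hq1) with h | h
        · exact absurd h hq2
        · exact h)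
    refine h1.trans ?_
    refine mul_le_mul_of_nonneg_right ?_ (Nat.cast_nonneg _)
    refine mul_le_mul_of_nonneg_left ?_ (by positivity)
    exact pow_le_pow_left₀ (by linarith) hCC₀ _
  · have hW0 : 0 < W := by linarith
    have hW1 : 1 ≤ W := hC1.trans hCW
    have hρ0 : 0 ≤ (m : ℝ) / Q.card := by positivity
    have hρ1 : (m : ℝ) / Q.card ≤ 1 :=
      div_le_one_of_le₀ (by exact_mod_cast hmQ) (Nat.cast_nonneg _)
    have hΛ6 : 0 ≤ Λ ^ 6 := by positivity
    have hr : 0 ≤ ((m : ℝ) / Q.card) ^ (1 / 2 - ε) := Real.rpow_nonneg hρ0 _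
    have hcond' : C₂ * m * ((m : ℝ) / Q.card) ^ (1 / 2 - ε) ≤ W := by
      refine le_trans ?_ hcond
      refine mul_le_mul_of_nonneg_right ?_ hr
      exact mul_le_mul_of_nonneg_right hCC₂ (Nat.cast_nonneg _)
    have hbad := bad_abs2 (X := Fin 3 → ℕ) Tr (fun t => (N3 t).primeFactors) P₀ Q m hmQ W hW0
      (hfinS (P₀ ∪ Q) (Finset.Subset.refl _))
      (fun w => Λ ^ 6 * C₀ ^ (P₀.card + w + 1) *
        (Q.card.choose (w - ⌊(1 / 3 - ε / 3) * w⌋₊) : ℝ))
      (fun w E hE => count_wQ (k := k) (α := 1 / 3 - ε / 3) (by linarith) (by linarith) hL P₀ Q Λ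
        hΛ1 hlogP hlogQ w E hE)
      (((m : ℝ) / Q.card) ^ δ) (Λ ^ 6) (Real.rpow_nonneg hρ0 _) (Real.rpow_le_one hρ0 hρ1 hδ.le)
      hΛ6 (fun w hwm hWw => by
        have h1 := hT Q.card m w P₀.card W hmQ hwm hWw (hCC₂.trans hCW) hPW hcond'
        have h2 := mul_le_mul_of_nonneg_left h1 hΛ6
        refine le_trans (le_of_eq ?_) h2
        ring)
    rw [← Real.rpow_mul hρ0] at hbad
    rw [← hΛ]
    refine le_trans ?_ hbad
    have hset : {P : Finset ℕ | P ⊆ Q ∧ P.card = m ∧ ¬ Good P₀ P y C W} ⊆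
        (((Q.powersetCard m).filter fun P => ∃ t : Fin 3 → ℕ, Tr t ∧
          (N3 t).primeFactors ⊆ P₀ ∪ P ∧ W < ((N3 t).primeFactors \ P₀).card : Finset _) :
            Set _) := by
      intro P hP
      rw [Set.mem_ofPred_eq] at hP
      obtain ⟨hPQ, hPm, hPG⟩ := hP
      rw [Finset.mem_coe, Finset.mem_filter, Finset.mem_powersetCard]
      refine ⟨⟨hPQ, hPm⟩, ?_⟩
      by_contra hno
      apply hPG
      have hall : ∀ t : Fin 3 → ℕ, Tr t → (N3 t).primeFactors ⊆ P₀ ∪ P →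
          (((N3 t).primeFactors \ P₀).card : ℝ) ≤ W := by
        intro t h1 h2
        by_contra h3
        exact hno ⟨t, h1, h2, not_le.1 h3⟩
      have hPP : P₀ ∪ P ⊆ P₀ ∪ Q := Finset.union_subset_union (Finset.Subset.refl _) hPQ
      have hfin := hfinT (P₀ ∪ P) hPP
      refine ⟨hfin, ?_, fun p hp => ?_⟩
      swap
      · rw [newPrimes_eq]
        exact hall (toT p) (toT_mem hp).1 (toT_mem hp).2
      rw [hcardT _ hfin, ← hΛ]
      have h1 := good_abs2 (X := Fin 3 → ℕ) Tr (fun t => (N3 t).primeFactors) P₀ P W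
        (Λ ^ 6 * B ^ W) B (Λ ^ 6) hW0 hB0 hΛ6 (hfin.toFinset.image toT)
        (fun T hTP hTW F hF => by
          have hsub : P₀ ∪ T ⊆ P₀ ∪ Q :=
            (Finset.union_subset_union (Finset.Subset.refl _) hTP).trans hPP
          have h2 := hL (P₀ ∪ T) (fun q hq => (hlog q (hsub hq)).1) (P₀ ∪ T).card Λ hΛ1 le_rfl F
            (fun t ht => ⟨(hF t ht).1, light_full hk1 (hF t ht).1 (hF t ht).2,
              Finset.card_le_card (hF t ht).2, fun q hq => (hlog q (hsub ((hF t ht).2 hq))).2⟩)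
          refine h2.trans ?_
          rw [hB]
          refine mul_le_mul_of_nonneg_left ?_ hΛ6
          have h5 : (((P₀ ∪ T).card + 1 : ℕ) : ℝ) ≤ 3 * W := by
            have h6 : (((P₀ ∪ T).card : ℕ) : ℝ) ≤ P₀.card + T.card := by
              exact_mod_cast Finset.card_union_le P₀ T
            push_cast
            linarith
          rw [← Real.rpow_natCast C₀ ((P₀ ∪ T).card + 1), ← Real.rpow_natCast C₀ 3,
            ← Real.rpow_mul (by linarith)]
          refine Real.rpow_le_rpow_of_exponent_le hC₀ ?_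
          push_cast at h5 ⊢
          exact h5) le_rfl
        (fun t ht => by
          obtain ⟨p, hp, rfl⟩ := Finset.mem_image.1 ht
          rw [Set.Finite.mem_toFinset] at hp
          obtain ⟨h1, h2⟩ := toT_mem hp
          exact ⟨h1, h2, hall _ h1 h2⟩)
      refine h1.trans (mul_le_mul_of_nonneg_left ?_ hΛ6)
      refine Real.rpow_le_rpow (by positivity) ?_ hW0.le
      exact mul_le_mul_of_nonneg_right hCe (by positivity)
    have h2 := Set.ncard_le_ncard hset (Finset.finite_toSet _)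
    rw [Set.ncard_coe_finset] at h2
    exact_mod_cast h2

end Pool.Agent.Results.MP_7aad9f_nt.RandomSetsOfPrimes
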